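import Pool.Agent.R652.CEInc

set_option autoImplicit false

namespace Pool.Agent.Results.MP_418eb4_lc.IncomparableIsoRelations

open Pool.Agent.R652.RE Pool.Agent.R652.CE

/-! ### equations given by finite lists -/

section

variable {I : ℕ → Bool} {hI : Computable I} {n : ℕ}

/-- the set of codes of a list of equations -/
def US (L : List (ℕ × ℕ)) : Set ℕ := {x | ∃ p ∈ L, x = ec p.1 p.2}

theorem exists_US (L : List (ℕ × ℕ)) : ∃ e, W e = US L := by
  classical
  refine exists_index (P := fun x => ∃ p ∈ L, x = ec p.1 p.2) ?_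
  have h := re_finset_ex (α := ℕ) (L.toFinset) (p := fun p x => x = ec p.1 p.2) (by
    intro p _
    refine (re_dec (D := fun x : ℕ => decide (x = ec p.1 p.2)) ?_).of_eq fun x => by simp
    exact (Primrec.eq.decide.comp Primrec.id (Primrec.const _)).to_comp)
  exact h.of_eq fun x => by simp

theorem US_mono {L L' : List (ℕ × ℕ)} (h : ∀ p ∈ L, p ∈ L') : US L ⊆ US L' := by
  rintro x ⟨p, hp, rfl⟩
  exact ⟨p, h p hp, rfl⟩

theorem US_inv {L : List (ℕ × ℕ)} {lam : ℕ → ℕ} (h : ∀ p ∈ L, lam p.1 = lam p.2) {a b : ℕ}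
    (hab : Eqv I n (US L) a b) : lam a = lam b := by
  induction hab with
  | rel x y h1 =>
    obtain ⟨⟨p, hp, h2⟩, _⟩ := h1
    obtain ⟨rfl, rfl⟩ := ec_inj h2
    exact h p hp
  | refl x => rfl
  | symm x y _ ih => exact ih.symm
  | trans x y z _ _ ih1 ih2 => exact ih1.trans ih2

theorem US_rel {L : List (ℕ × ℕ)} {a b : ℕ} (h : (a, b) ∈ L) (ha : valid I n a)
    (hb : valid I n b) : Eqv I n (US L) a b :=
  Relation.EqvGen.rel _ _ ⟨⟨(a, b), h, rfl⟩, ha, hb⟩

theorem Eqv_mono {U U' : Set ℕ} (h : U ⊆ U') {a b : ℕ} (hab : Eqv I n U a b) : Eqv I n U' a b := by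
  induction hab with
  | rel x y h1 => exact Relation.EqvGen.rel _ _ ⟨h h1.1, h1.2⟩
  | refl x => exact Relation.EqvGen.refl _
  | symm x y _ ih => exact Relation.EqvGen.symm _ _ ih
  | trans x y z _ _ ih1 ih2 => exact Relation.EqvGen.trans _ _ _ ih1 ih2

theorem card_US_lt (T : Finset ℕ) (hT : ∀ a, valid I n a → a ∈ T) {L L' : List (ℕ × ℕ)}
    (h : ∀ p ∈ L, p ∈ L') {lam : ℕ → ℕ} (hlam : ∀ p ∈ L, lam p.1 = lam p.2) {a b : ℕ}
    (hab : (a, b) ∈ L') (ha : valid I n a) (hb : valid I n b) (hne : lam a ≠ lam b) :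
    Nat.card ((VC I hI).pres n (US L')).A < Nat.card ((VC I hI).pres n (US L)).A := by
  obtain ⟨s, hs⟩ := exists_tm (hI := hI) ha
  obtain ⟨t, ht⟩ := exists_tm (hI := hI) hb
  refine card_lt_of_strict (VC I hI) n (US L) (US L') ?_ (finite_car T hT _).1
    (s := s) (t := t) ?_ ?_
  · intro s t hst
    rw [cong_iff] at hst ⊢
    exact Eqv_mono (US_mono h) hst
  · rw [cong_iff, hs, ht]
    exact US_rel hab ha hb
  · rw [cong_iff, hs, ht]
    exact fun h1 => hne (US_inv hlam h1)

end

/-! ### pure sets with five generators -/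

/-- no constants -/
abbrev noC : ℕ → Bool := fun _ => false

theorem comp_noC : Computable noC := Computable.const false

/-- pure sets -/
abbrev VP : Variety := VC noC comp_noC

/-- tokens -/
def TP : Finset ℕ := {0, 2, 4, 6, 8}

theorem hTP : ∀ a, valid noC 5 a → a ∈ TP := by
  intro a h
  unfold valid at h
  split_ifs at h with h1
  · unfold TP
    simp only [Finset.mem_insert, Finset.mem_singleton]
    omega

theorem VP_iso {U U' : Set ℕ} (h : Nat.card (VP.pres 5 U).A = Nat.card (VP.pres 5 U').A) :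
    (VP.pres 5 U).Iso (VP.pres 5 U') := by
  have h1 := (finite_car (hI := comp_noC) TP hTP U).1
  have h2 := (finite_car (hI := comp_noC) TP hTP U').1
  obtain ⟨e⟩ := Finite.card_eq.mp h
  exact ⟨e, fun f hf => absurd hf (by simp)⟩

theorem VP_card (U : Set ℕ) : 1 ≤ Nat.card (VP.pres 5 U).A ∧ Nat.card (VP.pres 5 U).A ≤ 5 := by
  have h1 := finite_car (hI := comp_noC) TP hTP U
  have h2 : TP.card = 5 := by decide
  rw [h2] at h1
  refine ⟨?_, h1.2⟩
  have h3 : Nonempty (VP.pres 5 U).A := ⟨cls (hI := comp_noC) U (Tm.var 0)⟩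
  have h4 := h1.1
  exact Nat.card_pos

/-- the equations merging the first generators -/
def LP (j : ℕ) : List (ℕ × ℕ) := (List.range (j + 1)).map fun i => (2 * i, 0)

theorem LP_mono {j : ℕ} : ∀ p ∈ LP j, p ∈ LP (j + 1) := by
  intro p hp
  unfold LP at hp ⊢
  rw [List.mem_map] at hp ⊢
  obtain ⟨i, hi, rfl⟩ := hp
  exact ⟨i, by rw [List.mem_range] at hi ⊢; omega, rfl⟩

theorem LP_card {j : ℕ} (hj : j < 4) :
    Nat.card (VP.pres 5 (US (LP (j + 1)))).A < Nat.card (VP.pres 5 (US (LP j))).A := by
  refine card_US_lt (hI := comp_noC) TP hTP LP_mono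
    (lam := fun a => if a ≤ 2 * j then 0 else 1) ?_ (a := 2 * (j + 1)) (b := 0) ?_ ?_ ?_ ?_
  · intro p hp
    unfold LP at hp
    rw [List.mem_map] at hp
    obtain ⟨i, hi, rfl⟩ := hp
    rw [List.mem_range] at hi
    show (if 2 * i ≤ 2 * j then 0 else 1) = if 0 ≤ 2 * j then 0 else 1
    rw [if_pos (by omega), if_pos (by omega)]
  · unfold LP
    rw [List.mem_map]
    exact ⟨j + 1, by rw [List.mem_range]; omega, rfl⟩
  · unfold valid
    rw [if_pos (by omega)]
    omega
  · unfold valid
    rw [if_pos (by omega)]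
    omega
  · show (if 2 * (j + 1) ≤ 2 * j then 0 else 1) ≠ if 0 ≤ 2 * j then 0 else 1
    rw [if_neg (by omega), if_pos (by omega)]
    decide

/-! ### bipointed sets with two generators -/

/-- two constants -/
abbrev twoC : ℕ → Bool := fun f => decide (f < 2)

theorem comp_twoC : Computable twoC :=
  (Primrec.nat_lt.decide.comp Primrec.id (Primrec.const 2)).to_comp

/-- bipointed sets -/
abbrev VB : Variety := VC twoC comp_twoC

/-- tokens -/
def TB : Finset ℕ := {0, 2, 1, 3}

theorem hTB : ∀ a, valid twoC 2 a → a ∈ TB := by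
  intro a h
  unfold valid at h
  unfold TB
  simp only [Finset.mem_insert, Finset.mem_singleton]
  split_ifs at h with h1
  · omega
  · have h2 : a / 2 < 2 := of_decide_eq_true h
    omega

theorem VB_card (U : Set ℕ) : 1 ≤ Nat.card (VB.pres 2 U).A ∧ Nat.card (VB.pres 2 U).A ≤ 4 := by
  have h1 := finite_car (hI := comp_twoC) TB hTB U
  have h2 : TB.card = 4 := by decide
  rw [h2] at h1
  refine ⟨?_, h1.2⟩
  have h3 : Nonempty (VB.pres 2 U).A := ⟨cls (hI := comp_twoC) U (Tm.var 0)⟩
  have h4 := h1.1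
  exact Nat.card_pos

theorem v0 : valid twoC 2 0 := by unfold valid; rw [if_pos (by omega)]; omega
theorem v2 : valid twoC 2 2 := by unfold valid; rw [if_pos (by omega)]; omega
theorem v1 : valid twoC 2 1 := by unfold valid; rw [if_neg (by omega)]; decide
theorem v3 : valid twoC 2 3 := by unfold valid; rw [if_neg (by omega)]; decide

/-- six lists of equations -/
def LB : Fin 6 → List (ℕ × ℕ)
  | 0 => []
  | 1 => [(0, 1)]
  | 2 => [(0, 1), (2, 1)]
  | 3 => [(1, 3)]
  | 4 => [(1, 3), (0, 1)]
  | 5 => [(1, 3), (0, 1), (2, 1)]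

/-- cardinality -/
noncomputable def cB (k : Fin 6) : ℕ := Nat.card (VB.pres 2 (US (LB k))).A

theorem c01 : cB 1 < cB 0 :=
  card_US_lt (hI := comp_twoC) TB hTB (L := LB 0) (L' := LB 1) (by decide) (lam := fun a => a)
    (by decide) (a := 0) (b := 1) (by decide) v0 v1 (by decide)

theorem c12 : cB 2 < cB 1 :=
  card_US_lt (hI := comp_twoC) TB hTB (L := LB 1) (L' := LB 2) (by decide)
    (lam := fun a => if a = 0 then 1 else a)
    (by decide) (a := 2) (b := 1) (by decide) v2 v1 (by decide)

theorem c34 : cB 4 < cB 3 :=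
  card_US_lt (hI := comp_twoC) TB hTB (L := LB 3) (L' := LB 4) (by decide)
    (lam := fun a => if a = 3 then 1 else a)
    (by decide) (a := 0) (b := 1) (by decide) v0 v1 (by decide)

theorem c45 : cB 5 < cB 4 :=
  card_US_lt (hI := comp_twoC) TB hTB (L := LB 4) (L' := LB 5) (by decide)
    (lam := fun a => if a = 2 then 2 else 1)
    (by decide) (a := 2) (b := 1) (by decide) v2 v1 (by decide)

/-- whether the two constants are equal -/
def mB (k : Fin 6) : Prop := Eqv twoC 2 (US (LB k)) 1 3

theorem m0 : ¬ mB 0 := fun h => absurd (US_inv (L := LB 0) (lam := fun a => a) (by decide) h)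
  (by decide)

theorem m1 : ¬ mB 1 := fun h => absurd (US_inv (L := LB 1)
  (lam := fun a => if a = 3 then 3 else 1) (by decide) h) (by decide)

theorem m2 : ¬ mB 2 := fun h => absurd (US_inv (L := LB 2)
  (lam := fun a => if a = 3 then 3 else 1) (by decide) h) (by decide)

theorem m3 : mB 3 := US_rel (by decide) v1 v3
theorem m4 : mB 4 := US_rel (by decide) v1 v3
theorem m5 : mB 5 := US_rel (by decide) v1 v3

theorem VB_distinct {k k' : Fin 6}
    (h : (VB.pres 2 (US (LB k))).Iso (VB.pres 2 (US (LB k')))) : k = k' := by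
  have h1 : cB k = cB k' := h.card
  have h2 : mB k ↔ mB k' :=
    ((iso_iff (I := twoC) (hI := comp_twoC) (n := 2) _ _).mp h).1 0 1 (by decide) (by decide)
  have a01 := c01
  have a12 := c12
  have a34 := c34
  have a45 := c45
  have b0 := m0
  have b1 := m1
  have b2 := m2
  have b3 := m3
  have b4 := m4
  have b5 := m5
  have hall : ∀ k : Fin 6, k = 0 ∨ k = 1 ∨ k = 2 ∨ k = 3 ∨ k = 4 ∨ k = 5 := by decide
  have hk := hall k
  have hk' := hall k'
  rcases hk with rfl | rfl | rfl | rfl | rfl | rfl <;>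
    rcases hk' with rfl | rfl | rfl | rfl | rfl | rfl <;>
    first
    | rfl
    | (exfalso; omega)
    | (exfalso; tauto)

/-- The isomorphism relations of the class of pure sets with five generators and of the class of
bipointed sets (sets with two constants) with two generators are incomparable with respect to
computable reducibility. Both signatures are finite. -/
theorem result : ∃ (V V' : Variety) (n n' : ℕ), 1 ≤ n ∧ 1 ≤ n' ∧
    V.IsNontrivial ∧ V'.IsNontrivial ∧
    {f | V.σ.I f = true}.Finite ∧ {f | V'.σ.I f = true}.Finite ∧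
    ¬ CRed (V.isoRel n) (V'.isoRel n') ∧ ¬ CRed (V'.isoRel n') (V.isoRel n) := by
  refine ⟨VP, VB, 5, 2, by omega, by omega,
    ⟨⟨Bool, fun _ _ _ => false⟩, fun _ _ h => h.elim, false, true, by simp⟩,
    ⟨⟨Bool, fun _ _ _ => false⟩, fun _ _ h => h.elim, false, true, by simp⟩, ?_, ?_, ?_, ?_⟩
  · refine Set.Finite.subset (Set.finite_empty) ?_
    intro f hf
    exact absurd hf (by simp)
  · refine Set.Finite.subset (Set.finite_lt_nat 2) ?_
    intro f hf
    exact of_decide_eq_true hf
  · rintro ⟨f, hf, hr⟩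
    -- indices for the five cardinalities
    have hex : ∀ j, ∃ e, W e = US (LP j) := fun j => exists_US _
    choose ind hind using hex
    have step : ∀ j, j < 4 → Nat.card (VB.pres 2 (W (f (ind (j + 1))))).A <
        Nat.card (VB.pres 2 (W (f (ind j)))).A := by
      intro j hj
      refine adversary (hI := comp_twoC) TB hTB (EA := VP.isoRel 5) ?_ hf hr ?_ ?_
      · intro e i h
        show (VP.pres 5 (W e)).Iso (VP.pres 5 (W i))
        rw [h]
        exact Alg.Iso.refl _
      · rw [hind, hind]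
        exact US_mono LP_mono
      · intro h
        have h1 : Nat.card (VP.pres 5 (W (ind j))).A = Nat.card (VP.pres 5 (W (ind (j + 1)))).A :=
          Alg.Iso.card h
        rw [hind, hind] at h1
        have h2 := LP_card hj
        omega
    have s0 := step 0 (by omega)
    have s1 := step 1 (by omega)
    have s2 := step 2 (by omega)
    have s3 := step 3 (by omega)
    have b0 := (VB_card (W (f (ind 0)))).2
    have b4 := (VB_card (W (f (ind 4)))).1
    simp only [Nat.reduceAdd] at s0 s1 s2 s3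
    omega
  · rintro ⟨f, hf, hr⟩
    have hex : ∀ k : Fin 6, ∃ e, W e = US (LB k) := fun k => exists_US _
    choose ind hind using hex
    have hmap : Set.MapsTo (fun k : Fin 6 => Nat.card (VP.pres 5 (W (f (ind k)))).A)
        (Finset.univ : Finset (Fin 6)) (Finset.Icc 1 5) := by
      intro k _
      have := VP_card (W (f (ind k)))
      exact Finset.mem_coe.mpr (Finset.mem_Icc.mpr this)
    obtain ⟨k, _, k', _, hne, h⟩ := Finset.exists_ne_map_eq_of_card_lt_of_maps_to
      (s := (Finset.univ : Finset (Fin 6))) (t := Finset.Icc 1 5) (by decide) hmap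
    apply hne
    have h1 : VP.isoRel 5 (f (ind k)) (f (ind k')) := VP_iso h
    have h2 := (hr _ _).mpr h1
    have h3 : (VB.pres 2 (W (ind k))).Iso (VB.pres 2 (W (ind k'))) := h2
    rw [hind, hind] at h3
    exact VB_distinct h3

end Pool.Agent.Results.MP_418eb4_lc.IncomparableIsoRelations
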